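import Pool.Agent.W2helper84.QS.Main

/-!
# A level set of the smallest univoque base function with one element (Q2 is false)

`U x` is the set of the bases `q` in `(1, 2]` in which `x` has exactly one expansion with digits `0`
and `1`, and `q_s x = inf (U x)`.  We show that `L q = {x > 0 : q_s x = q}` is NOT infinite for all
`q ≤ q_max` in the closure of `U 1`: for the base `q = 1.87673…` in which the number one has the
expansion `1110 (01)^∞`, which is the only one, so that `q` belongs to `U 1`, the level set `L q`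
has exactly one element, the number `1 / q + 1 / (q ^ 4 (q - 1)) = 0.62478…`.
-/

set_option autoImplicit false

namespace Pool.Agent.Results.MP_bdab2f_nt.OneElementLevelSet

open Pool.Agent.R341.Uni
open Pool.Agent.W2helper84.QS

/-- the value `∑ d_i q ^ (-i)` of the expansion `d` in base `q` (the digits are `true = 1` and
`false = 0`; the index starts at zero) -/
noncomputable def value (q : ℝ) (d : ℕ → Bool) : ℝ := ∑' i, (if d i then (1 : ℝ) else 0) / q ^ (i + 1)

/-- the bases `q` in `(1, 2]` in which `x` has exactly one expansion -/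
def U (x : ℝ) : Set ℝ := {q | 1 < q ∧ q ≤ 2 ∧ ∃! d : ℕ → Bool, value q d = x}

/-- the smallest univoque base function -/
noncomputable def qs (x : ℝ) : ℝ := sInf (U x)

/-- the level sets -/
def L (q : ℝ) : Set ℝ := {x | 0 < x ∧ qs x = q}

/-- the largest value of `qs` on the positive numbers (the values are bounded, see `result`) -/
noncomputable def qmax : ℝ := sSup (qs '' Set.Ioi 0)

/-- **Q2 is false.** There is a number `q` in the closure of `U 1`, even in `U 1`, with `q < q_max`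
(some value of `q_s` is larger than `q`), whose level set has exactly one element.
It is `q = 1.87673…`, the base in which one has the expansion `1110 (01)^∞`. -/
theorem result : BddAbove (qs '' Set.Ioi 0) ∧
    ∃ q : ℝ, 1.8767 < q ∧ q < 1.8768 ∧ 1 / q + 1 / q ^ 2 + 1 / q ^ 3 + 1 / (q ^ 4 * (q ^ 2 - 1)) = 1 ∧
      q ∈ U 1 ∧ q ∈ closure (U 1) ∧ (∃ c : ℝ, 0 < c ∧ q < qs c) ∧ q < qmax ∧
      L q = {1 / q + 1 / (q ^ 4 * (q - 1))} ∧ (L q).Finite := by
  have hU : U = Ux := rfl
  have hqs : qs = fun x => sInf (Ux x) := rfl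
  have hbdd : ∀ x : ℝ, 0 < x → sInf (Ux x) ≤ (BB : ℝ) := fun x hx => by
    obtain ⟨q', h1, h2⟩ := F1 hx
    exact (csInf_le (bdd_Ux x) h1).trans h2
  have hB : BddAbove (qs '' Set.Ioi 0) := by
    refine ⟨(BB : ℝ), ?_⟩
    rintro _ ⟨x, hx, rfl⟩
    exact hbdd x hx
  refine ⟨hB, ?_⟩
  obtain ⟨q, h1, h2, hq⟩ := exists_Q
  have hmem : q ∈ U 1 := mem_U h1 h2 hq
  have h5 : (0 : ℝ) ≤ Real.sqrt 5 := Real.sqrt_nonneg 5
  have h5' : Real.sqrt 5 ^ 2 = 5 := Real.sq_sqrt (by norm_num)
  obtain ⟨c, hc0, hc⟩ : ∃ c : ℝ, 0 < c ∧ c ^ 2 + c = 1 :=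
    ⟨(Real.sqrt 5 - 1) / 2, by nlinarith, by nlinarith⟩
  have hlt : q < qs c := by
    obtain ⟨q', hq'1, hq'2⟩ := F1 hc0
    have hL : (LL : ℝ) ≤ sInf (Ux c) := le_csInf ⟨q', hq'1⟩ fun r hr => F3 hc0 hc hr
    have hLn : (LL : ℝ) = 1.888444 := by unfold LL; norm_num
    rw [hLn] at hL
    calc q < 1.888444 := by linarith
      _ ≤ qs c := hL
  have hlev : L q = {1 / q + 1 / (q ^ 4 * (q - 1))} := level h1 h2 hq
  refine ⟨q, h1, h2, ?_, hmem, subset_closure hmem, ⟨c, hc0, hlt⟩, ?_, hlev, ?_⟩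
  · unfold EE at hq
    have hq0 : q ≠ 0 := by linarith
    have hq1 : q + 1 ≠ 0 := by linarith
    have hq3 : q - 1 ≠ 0 := by linarith
    have e3 : q ^ 2 - 1 = (q - 1) * (q + 1) := by ring
    have e : 1 / q + 1 / q ^ 2 + 1 / q ^ 3 + 1 / (q ^ 4 * (q ^ 2 - 1)) =
        1 + (1 / (q - 1) - 1 - (1 + q / (q ^ 2 - 1)) / q ^ 4) := by
      rw [e3]
      field_simp
      ring
    rw [e, hq, add_zero]
  · exact lt_of_lt_of_le hlt (le_csSup hB ⟨c, hc0, rfl⟩)
  · rw [hlev]
    exact Set.finite_singleton _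

end Pool.Agent.Results.MP_bdab2f_nt.OneElementLevelSet
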